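import Mathlib
import Pool.Agent.H61.Sun.Core
import Pool.Agent.H61.Sun.Exist
import Pool.Agent.H61.Sun.Signs

set_option autoImplicit false

namespace Pool.Agent.Results.MP_84b294_nt.SunConjecture

open Pool.Agent.H61.Sun

/-- The binomial coefficient `binom(a,k) = a (a-1) ... (a-k+1) / k!` of a rational number `a`. -/
def gbinom (a : ℚ) (k : ℕ) : ℚ := (∏ j ∈ Finset.range k, (a - j)) / (k.factorial : ℚ)

/-- `S_+(p)`, the sum of `binom(-1/4,k)² 64^k` over `0 ≤ k ≤ p-1`. -/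
def Splus (p : ℕ) : ℚ := ∑ k ∈ Finset.range p, gbinom (-1 / 4) k ^ 2 * 64 ^ k

/-- `S_-(p)`, the sum of `binom(-1/4,k)² 64^(-k)` over `0 ≤ k ≤ p-1`. -/
def Sminus (p : ℕ) : ℚ := ∑ k ∈ Finset.range p, gbinom (-1 / 4) k ^ 2 / 64 ^ k

/-- `u ≡ v (mod p²)` for rationals: the numerator of `u - v` in lowest terms is divisible
by `p²`. -/
def CongSq (p : ℕ) (u v : ℚ) : Prop := (p : ℤ) ^ 2 ∣ (u - v).num

section Transfer

variable {p : ℕ} [hp : Fact p.Prime]

/-- The inclusion of the `p`-adic integers. -/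
noncomputable def inc (p : ℕ) [Fact p.Prime] : ℤ_[p] →+* ℚ_[p] := PadicInt.Coe.ringHom

theorem inc_inj : Function.Injective (inc p) := fun _ _ h => PadicInt.ext h

theorem cong_of {u v : ℚ} {U V : ℤ_[p]} (hU : inc p U = (u : ℚ_[p]))
    (hV : inc p V = (v : ℚ_[p])) (h : (p : ℤ_[p]) ^ 2 ∣ U - V) : CongSq p u v := by
  obtain ⟨W, hW⟩ := h
  have h1 : ((u - v : ℚ) : ℚ_[p]) = (p : ℚ_[p]) ^ 2 * inc p W := by
    rw [Rat.cast_sub, ← hU, ← hV, ← map_sub, hW, map_mul, map_pow, map_natCast]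
  have h2 : (((u - v).num : ℤ_[p])) = (p : ℤ_[p]) ^ 2 * (W * ((u - v).den : ℤ_[p])) := by
    apply inc_inj
    rw [map_intCast, map_mul, map_pow, map_natCast, map_mul, map_natCast]
    have h3 : ((u - v).num : ℚ) = (u - v) * ((u - v).den : ℚ) := (Rat.mul_den_eq_num _).symm
    have h4 := congrArg (Rat.cast : ℚ → ℚ_[p]) h3
    rw [Rat.cast_mul, h1, Rat.cast_intCast, Rat.cast_natCast] at h4
    rw [h4]; ring
  unfold CongSq
  have h5 : (p : ℤ_[p]) ^ 2 ∣ ((u - v).num : ℤ_[p]) := ⟨_, h2⟩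
  have h6 := (PadicInt.pow_p_dvd_int_iff 2 (u - v).num).mp h5
  exact_mod_cast h6

theorem gbinom_succ (a : ℚ) (k : ℕ) : ((k : ℚ) + 1) * gbinom a (k + 1) = (a - k) * gbinom a k := by
  have h1 : (k.factorial : ℚ) ≠ 0 := by exact_mod_cast Nat.factorial_ne_zero k
  have h2 : ((k : ℚ) + 1) ≠ 0 := by positivity
  rw [gbinom, gbinom, Finset.prod_range_succ, Nat.factorial_succ]
  push_cast
  field_simp

theorem inc_tau (hp2 : 2 < p) : ∀ k < p, inc p (tau p k) = ((gbinom (-1 / 4) k : ℚ) : ℚ_[p]) := by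
  intro k
  induction k with
  | zero => intro _; simp [tau, gbinom]
  | succ k ih =>
    intro hk
    have ih' := ih (by omega)
    have h1 := tau_succ hp2 hk
    have h2 := congrArg (inc p) h1
    have h3 := congrArg (Rat.cast : ℚ → ℚ_[p]) (gbinom_succ (-1 / 4) k)
    have h4 : (4 : ℚ_[p]) * ((k : ℚ_[p]) + 1) ≠ 0 := by
      have : ((4 * (k + 1) : ℕ) : ℚ_[p]) ≠ 0 := by exact_mod_cast (by omega : 4 * (k + 1) ≠ 0)
      push_cast at this
      exact this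
    apply mul_left_cancel₀ h4
    push_cast at h3
    simp only [map_mul, map_add, map_one, map_neg, map_ofNat, map_natCast] at h2
    rw [ih'] at h2
    linear_combination h2 - 4 * h3

theorem inc_Sp (hp2 : 2 < p) : inc p (Sp p) = ((Splus p : ℚ) : ℚ_[p]) := by
  rw [Sp, Splus, Rat.cast_sum, map_sum]
  refine Finset.sum_congr rfl (fun k hk => ?_)
  rw [Finset.mem_range] at hk
  push_cast
  rw [map_mul, map_pow, map_pow, map_ofNat, inc_tau hp2 k hk]

theorem ndvd_two (hp2 : 2 < p) : ¬ p ∣ 2 := fun hd => by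
  have := (Nat.prime_dvd_prime_iff_eq hp.out Nat.prime_two).mp hd
  omega

theorem inc_four (hp2 : 2 < p) : inc p (iR p 4) = 1 / 4 := by
  have hn4 : ¬ p ∣ 4 := fun hd => by
    have h4 : p ∣ 2 ^ 2 := by simpa using hd
    exact ndvd_two hp2 (hp.out.dvd_of_dvd_pow h4)
  have h4 : (4 : ℤ_[p]) * iR p 4 = 1 := by simpa using iR_mul (p := p) hn4
  have h5 := congrArg (inc p) h4
  rw [map_mul, map_ofNat, map_one] at h5
  rw [eq_div_iff (by norm_num)]
  linear_combination h5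

theorem inc_Sm (hp2 : 2 < p) : inc p (Sm p) = ((Sminus p : ℚ) : ℚ_[p]) := by
  rw [Sm, Sminus, Rat.cast_sum, map_sum]
  refine Finset.sum_congr rfl (fun k hk => ?_)
  rw [Finset.mem_range] at hk
  push_cast
  rw [map_mul, map_pow, map_pow (inc p) (iR p 4 ^ 3), map_pow (inc p) (iR p 4), inc_tau hp2 k hk, inc_four hp2,
    show ((1 : ℚ_[p]) / 4) ^ 3 = 1 / 64 by norm_num, div_pow, one_pow, mul_one_div]

theorem finish_one {x y δ : ℤ} {w S : ℤ_[p]} {u : ℚ} (hS : inc p S = (u : ℚ_[p]))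
    (hxy : (p : ℤ) = x ^ 2 + 7 * y ^ 2) (hx : ¬ (p : ℤ) ∣ x) (hp2 : 2 < p)
    (hw : w ^ 2 = -7) (hpw : (p : ℤ_[p]) ∣ (x : ℤ_[p]) + y * w)
    (hd : (p : ℤ_[p]) ^ 2 ∣ S - (δ : ℤ_[p]) * (x - y * w)) :
    CongSq p u ((δ : ℚ) * (2 * x - p / (2 * x))) := by
  have hn : ¬ (p : ℤ) ∣ 2 * x := by
    intro h
    rcases (Nat.prime_iff_prime_int.mp hp.out).dvd_or_dvd h with h | h
    · exact ndvd_two hp2 (by exact_mod_cast h)
    · exact hx h
  obtain ⟨X, hX⟩ := (isUnit_int hn).exists_right_inv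
  push_cast at hX
  have hxyR : (p : ℤ_[p]) = (x : ℤ_[p]) ^ 2 + 7 * (y : ℤ_[p]) ^ 2 := by
    exact_mod_cast congrArg (Int.cast : ℤ → ℤ_[p]) hxy
  refine cong_of (U := S) (V := (δ : ℤ_[p]) * (2 * x - p * X)) hS ?_ ?_
  · have h1 := congrArg (inc p) hX
    rw [map_mul, map_mul, map_ofNat, map_intCast, map_one] at h1
    have hx0 : (2 : ℚ_[p]) * (x : ℚ_[p]) ≠ 0 := left_ne_zero_of_mul_eq_one h1
    have h2 : inc p X = 1 / (2 * (x : ℚ_[p])) := by
      rw [eq_div_iff hx0]; linear_combination h1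
    rw [map_mul, map_sub, map_mul, map_mul, map_intCast, map_intCast, map_natCast, map_ofNat, h2]
    push_cast
    ring
  · obtain ⟨t, ht⟩ := hpw
    obtain ⟨z, hz⟩ := hd
    refine ⟨z - δ * (t ^ 2 * X), ?_⟩
    have e : (x : ℤ_[p]) - y * w - (2 * x - p * X) = - (((x : ℤ_[p]) + y * w) ^ 2 * X) := by
      linear_combination (X : ℤ_[p]) * hxyR + (X * (y : ℤ_[p]) ^ 2) * hw + ((x : ℤ_[p]) + y * w) * hX
    rw [ht] at e
    linear_combination hz + (δ : ℤ_[p]) * e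

theorem w_identity {x y : ℤ} {w Y : ℤ_[p]} (hxy : (p : ℤ) = x ^ 2 + 7 * y ^ 2)
    (hw : w ^ 2 = -7) (hY : 2 * (y : ℤ_[p]) * Y = 1) :
    w * ((x : ℤ_[p]) - y * w) - (14 * y - p * Y) = ((x : ℤ_[p]) + y * w) ^ 2 * Y := by
  have hxyR : (p : ℤ_[p]) = (x : ℤ_[p]) ^ 2 + 7 * (y : ℤ_[p]) ^ 2 := by
    exact_mod_cast congrArg (Int.cast : ℤ → ℤ_[p]) hxy
  linear_combination (Y : ℤ_[p]) * hxyR - ((y : ℤ_[p]) + (y : ℤ_[p]) ^ 2 * Y) * hw
    + (7 * (y : ℤ_[p]) - (x : ℤ_[p]) * w) * hY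

theorem finish_three {x y δ : ℤ} {w S : ℤ_[p]} {u : ℚ} (hS : inc p S = (u : ℚ_[p]))
    (hxy : (p : ℤ) = x ^ 2 + 7 * y ^ 2) (hy : ¬ (p : ℤ) ∣ y) (hp2 : 2 < p)
    (hw : w ^ 2 = -7) (hpw : (p : ℤ_[p]) ∣ (x : ℤ_[p]) + y * w)
    (hd : (p : ℤ_[p]) ^ 2 ∣ S - 3 * w * ((δ : ℤ_[p]) * (x - y * w))) :
    CongSq p u ((δ : ℚ) * (42 * y - 3 * p / (2 * y))) := by
  have hn : ¬ (p : ℤ) ∣ 2 * y := by
    intro h
    rcases (Nat.prime_iff_prime_int.mp hp.out).dvd_or_dvd h with h | h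
    · exact ndvd_two hp2 (by exact_mod_cast h)
    · exact hy h
  obtain ⟨Y, hY⟩ := (isUnit_int hn).exists_right_inv
  push_cast at hY
  refine cong_of (U := S) (V := (δ : ℤ_[p]) * (42 * y - 3 * p * Y)) hS ?_ ?_
  · have h1 := congrArg (inc p) hY
    rw [map_mul, map_mul, map_ofNat, map_intCast, map_one] at h1
    have hx0 : (2 : ℚ_[p]) * (y : ℚ_[p]) ≠ 0 := left_ne_zero_of_mul_eq_one h1
    have h2 : inc p Y = 1 / (2 * (y : ℚ_[p])) := by
      rw [eq_div_iff hx0]; linear_combination h1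
    simp only [map_mul, map_sub, map_intCast, map_natCast, map_ofNat, h2]
    push_cast
    ring
  · obtain ⟨t, ht⟩ := hpw
    obtain ⟨z, hz⟩ := hd
    refine ⟨z + 3 * δ * (t ^ 2 * Y), ?_⟩
    have e := w_identity hxy hw hY
    rw [ht] at e
    linear_combination hz + 3 * (δ : ℤ_[p]) * e

theorem finish_three' {x y δ : ℤ} {w S : ℤ_[p]} {u : ℚ} (hS : inc p S = (u : ℚ_[p]))
    (hxy : (p : ℤ) = x ^ 2 + 7 * y ^ 2) (hy : ¬ (p : ℤ) ∣ y) (hp2 : 2 < p)
    (hw : w ^ 2 = -7) (hpw : (p : ℤ_[p]) ∣ (x : ℤ_[p]) + y * w)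
    (hd : (p : ℤ_[p]) ^ 2 ∣ 8 * S - 3 * w * ((δ : ℤ_[p]) * (x - y * w))) :
    CongSq p u ((δ : ℚ) * (3 / 4 * (7 * y - p / (4 * y)))) := by
  have hn : ¬ (p : ℤ) ∣ 2 * y := by
    intro h
    rcases (Nat.prime_iff_prime_int.mp hp.out).dvd_or_dvd h with h | h
    · exact ndvd_two hp2 (by exact_mod_cast h)
    · exact hy h
  obtain ⟨Y, hY⟩ := (isUnit_int hn).exists_right_inv
  push_cast at hY
  have h2 : (2 : ℤ_[p]) * iR p 2 = 1 := by simpa using iR_mul (p := p) (ndvd_two hp2)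
  have h8 : (8 : ℤ_[p]) * iR p 2 ^ 3 = 1 := by
    linear_combination (4 * (iR p 2) ^ 2 + 2 * iR p 2 + 1) * h2
  refine cong_of (U := S) (V := (iR p 2 ^ 3) * ((δ : ℤ_[p]) * (42 * y - 3 * p * Y))) hS ?_ ?_
  · have h1 := congrArg (inc p) hY
    rw [map_mul, map_mul, map_ofNat, map_intCast, map_one] at h1
    have hx0 : (2 : ℚ_[p]) * (y : ℚ_[p]) ≠ 0 := left_ne_zero_of_mul_eq_one h1
    have h3 : inc p Y = 1 / (2 * (y : ℚ_[p])) := by
      rw [eq_div_iff hx0]; linear_combination h1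
    have h4 := congrArg (inc p) h8
    rw [map_mul, map_ofNat, map_one, map_pow] at h4
    have h5 : (inc p (iR p 2)) ^ 3 = 1 / 8 := by
      rw [eq_div_iff (by norm_num)]; linear_combination h4
    simp only [map_mul, map_sub, map_intCast, map_natCast, map_ofNat, map_pow, h3, h5]
    push_cast
    ring
  · obtain ⟨t, ht⟩ := hpw
    obtain ⟨z, hz⟩ := hd
    refine ⟨iR p 2 ^ 3 * (z + 3 * δ * (t ^ 2 * Y)), ?_⟩
    have e := w_identity hxy hw hY
    rw [ht] at e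
    linear_combination (iR p 2 ^ 3) * hz + 3 * (iR p 2 ^ 3) * (δ : ℤ_[p]) * e - S * h8

theorem sign_cast (P : Prop) [Decidable P] :
    (if P then 1 else -1 : ℤ_[p]) = ((if P then 1 else -1 : ℤ) : ℤ_[p]) := by
  split_ifs <;> simp

theorem not_dvd {x y : ℤ} (hxy : (p : ℤ) = x ^ 2 + 7 * y ^ 2) (hp7 : p ≠ 7) :
    ¬ (p : ℤ) ∣ x ∧ ¬ (p : ℤ) ∣ y := by
  have hpr := Nat.prime_iff_prime_int.mp hp.out
  have hp0 : (p : ℤ) ≠ 0 := hpr.ne_zero
  have hp1 : (1 : ℤ) < p := by exact_mod_cast hp.out.one_lt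
  have both : ¬ ((p : ℤ) ∣ x ∧ (p : ℤ) ∣ y) := by
    rintro ⟨⟨s, hs⟩, ⟨t, ht⟩⟩
    rw [hs, ht] at hxy
    have h1 : (p : ℤ) * (p * (s ^ 2 + 7 * t ^ 2)) = p * 1 := by linear_combination - hxy
    have h2 := mul_left_cancel₀ hp0 h1
    have h3 : (p : ℤ) ∣ 1 := ⟨_, h2.symm⟩
    have h4 := Int.le_of_dvd (by norm_num) h3
    omega
  have hy : ¬ (p : ℤ) ∣ y := by
    intro h
    apply both
    refine ⟨?_, h⟩
    apply hpr.dvd_of_dvd_pow (n := 2)
    have : x ^ 2 = p - 7 * y * y := by linear_combination - hxy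
    rw [this]
    exact dvd_sub (dvd_refl _) (h.mul_left _)
  refine ⟨?_, hy⟩
  intro h
  have h1 : (p : ℤ) ∣ 7 * y ^ 2 := by
    have : 7 * y ^ 2 = p - x * x := by linear_combination - hxy
    rw [this]
    exact dvd_sub (dvd_refl _) (h.mul_left _)
  rcases hpr.dvd_or_dvd h1 with h2 | h2
  · have h3 : p ∣ 7 := by exact_mod_cast h2
    exact hp7 ((Nat.prime_dvd_prime_iff_eq hp.out (by norm_num)).mp h3)
  · exact hy (hpr.dvd_of_dvd_pow h2)

end Transfer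

/-- Sun's conjecture on `S_±(p)` for the primes `p = x² + 7y²`. -/
theorem result (p : ℕ) [Fact p.Prime] (hp2 : 2 < p)
    (h7 : p % 7 = 1 ∨ p % 7 = 2 ∨ p % 7 = 4) :
    (∃ x y : ℤ, (p : ℤ) = x ^ 2 + 7 * y ^ 2) ∧
    ∀ x y : ℤ, (p : ℤ) = x ^ 2 + 7 * y ^ 2 →
      (p % 4 = 1 → Odd x ∧
        CongSq p (Splus p)
          ((legendreSym p 2 : ℚ) * (-1) ^ ((x - 1) / 2) * (2 * x - p / (2 * x))) ∧
        CongSq p (Sminus p) ((-1) ^ ((x - 1) / 2) * (2 * x - p / (2 * x)))) ∧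
      (p % 4 = 3 → Odd y ∧
        CongSq p (Splus p)
          ((legendreSym p 2 : ℚ) * (-1) ^ ((y - 1) / 2) * (42 * y - 3 * p / (2 * y))) ∧
        CongSq p (Sminus p)
          (3 / 4 * (-1) ^ ((y - 1) / 2) * (7 * y - p / (4 * y)))) := by
  have hpr : p.Prime := Fact.out
  refine ⟨exists_rep hp2 h7, ?_⟩
  intro x y hxy
  have hp7 : p ≠ 7 := by rintro rfl; omega
  obtain ⟨hx, hy⟩ := not_dvd hxy hp7
  have hodd : p % 2 = 1 := by
    rcases hpr.eq_two_or_odd with h | h <;> omega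
  obtain ⟨N, hN⟩ : ∃ N, p = 2 * N + 1 := ⟨p / 2, by omega⟩
  constructor
  · intro h4
    -- `x` odd, `y` even
    have hxo : Odd x := by
      rcases Int.even_or_odd x with ⟨i, hi⟩ | h
      · exfalso
        rcases Int.even_or_odd y with ⟨j, hj⟩ | ⟨j, hj⟩
        · have : (p : ℤ) = 2 * (2 * i ^ 2 + 14 * j ^ 2) := by rw [hxy, hi, hj]; ring
          omega
        · have : (p : ℤ) = 4 * (i ^ 2 + 7 * j ^ 2 + 7 * j + 1) + 3 := by rw [hxy, hi, hj]; ring
          omega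
      · exact h
    have hye : Even y := by
      rcases Int.even_or_odd y with h | ⟨j, hj⟩
      · exact h
      · exfalso
        obtain ⟨i, hi⟩ := hxo
        have : (p : ℤ) = 2 * (2 * i ^ 2 + 2 * i + 14 * j ^ 2 + 14 * j + 4) := by rw [hxy, hi, hj]; ring
        omega
    refine ⟨hxo, ?_⟩
    obtain ⟨i, hi⟩ := hxo
    obtain ⟨j, hj⟩ := hye
    have hj2 : y = 2 * j := by omega
    obtain ⟨ν, hν⟩ : ∃ ν, 4 * ν + 1 = p := ⟨p / 4, by omega⟩
    obtain ⟨w, hw, hpw, c1, -⟩ := core hp2 hN hxy hx hy (s := i - j) (by omega)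
    obtain ⟨d1, d2⟩ := c1 ν hν
    obtain ⟨s1, s2⟩ := signs_one hp2 (i := i) (j := j) (by rw [hxy, hi, hj2]) hν
    have ei : (x - 1) / 2 = i := by omega
    have es : i - j + y = i + j := by omega
    rw [es, sign_cast] at d1 d2
    constructor
    · have f := finish_one (inc_Sp hp2) hxy hx hp2 hw hpw d1
      convert f using 2
      rw [ei, zsign, s1, ← Int.cast_mul]
      congr 1
      by_cases h1 : Even i <;> by_cases h2 : Even j <;> simp [h1, h2, Int.even_add]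
    · have d2' : (p : ℤ_[p]) ^ 2 ∣ Sm p - (((-1) ^ ν * (if Even (i + j) then 1 else -1) : ℤ) : ℤ_[p]) * (x - y * w) := by
        push_cast
        push_cast at d2
        rw [mul_assoc]; exact d2
      have f := finish_one (inc_Sm hp2) hxy hx hp2 hw hpw d2'
      convert f using 2
      rw [ei, zsign, s2]
      congr 1
      by_cases h1 : Even i <;> by_cases h2 : Even j <;> simp [h1, h2, Int.even_add]
  · intro h4
    -- `x` even, `y` odd
    have hyo : Odd y := by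
      rcases Int.even_or_odd y with ⟨j, hj⟩ | h
      · exfalso
        rcases Int.even_or_odd x with ⟨i, hi⟩ | ⟨i, hi⟩
        · have : (p : ℤ) = 2 * (2 * i ^ 2 + 14 * j ^ 2) := by rw [hxy, hi, hj]; ring
          omega
        · have : (p : ℤ) = 4 * (i ^ 2 + i + 7 * j ^ 2) + 1 := by rw [hxy, hi, hj]; ring
          omega
      · exact h
    have hxe : Even x := by
      rcases Int.even_or_odd x with h | ⟨i, hi⟩
      · exact h
      · exfalso
        obtain ⟨j, hj⟩ := hyo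
        have : (p : ℤ) = 2 * (2 * i ^ 2 + 2 * i + 14 * j ^ 2 + 14 * j + 4) := by rw [hxy, hi, hj]; ring
        omega
    refine ⟨hyo, ?_⟩
    obtain ⟨i, hi⟩ := hxe
    obtain ⟨j, hj⟩ := hyo
    have hi2 : x = 2 * i := by omega
    obtain ⟨ν, hν⟩ : ∃ ν, 4 * ν + 1 = 3 * p := ⟨3 * p / 4, by omega⟩
    obtain ⟨w, hw, hpw, -, c3⟩ := core hp2 hN hxy hx hy (s := i - j - 1) (by omega)
    obtain ⟨d1, d2⟩ := c3 ν hν
    obtain ⟨s1, s2⟩ := signs_three hp2 (i := i) (j := j) (by rw [hxy, hi2, hj]) hν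
    have ej : (y - 1) / 2 = j := by omega
    have es : i - j - 1 + y = i + j := by omega
    have hNo : (-1 : ℤ_[p]) ^ N = -1 := by
      have : Odd N := by rw [Nat.odd_iff]; omega
      exact this.neg_one_pow
    rw [es, sign_cast] at d1 d2
    constructor
    · have f := finish_three (inc_Sp hp2) hxy hy hp2 hw hpw d1
      convert f using 2
      rw [ej, zsign, s1, ← Int.cast_mul]
      congr 1
      by_cases h1 : Even i <;> by_cases h2 : Even j <;> simp [h1, h2, Int.even_add]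
    · have d2' : (p : ℤ_[p]) ^ 2 ∣ 8 * Sm p - 3 * w * ((((-1) ^ ν * (-1) * (if Even (i + j) then 1 else -1) : ℤ) : ℤ_[p]) * (x - y * w)) := by
        rw [hNo] at d2
        push_cast
        push_cast at d2
        convert d2 using 2
        ring
      have f := finish_three' (inc_Sm hp2) hxy hy hp2 hw hpw d2'
      convert f using 1
      rw [ej, zsign, s2]
      by_cases h1 : Even i <;> by_cases h2 : Even j <;> simp [h1, h2, Int.even_add]

end Pool.Agent.Results.MP_84b294_nt.SunConjecture
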